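import Mathlib

/-! Doubling the ones in a most efficient representation of `11`. -/

namespace Pool.Agent.Results.MP_d302e1_nt.ElevenDoubled

/-- Formulas built from a constant `c` with binary `+` and `×`. -/
inductive Expr where
  | c : Expr
  | add : Expr → Expr → Expr
  | mul : Expr → Expr → Expr

/-- The value of the formula when the constant is `l`. -/
def Expr.val (l : ℕ) : Expr → ℕ
  | .c => l
  | .add a b => a.val l + b.val l
  | .mul a b => a.val l * b.val l

/-- The number of copies of the constant. -/
def Expr.size : Expr → ℕ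
  | .c => 1
  | .add a b => a.size + b.size
  | .mul a b => a.size + b.size

/-- The `l`-complexity of `n`: the least size of an `l`-expression with value `n`. -/
noncomputable def complexity (l n : ℕ) : ℕ := sInf {s : ℕ | ∃ E : Expr, E.val l = n ∧ E.size = s}

/-- The number of summands that are the literal constant, when the formula is read as a sum
(with `+` associative). -/
def Expr.literals : Expr → ℕ
  | .c => 1
  | .add a b => a.literals + b.literals
  | .mul _ _ => 0

/-- No sum occurring in the formula (with `+` associative) has four or more summands that are the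
literal constant. -/
def Expr.Reduced : Expr → Prop
  | .c => True
  | .add a b => a.literals + b.literals ≤ 3 ∧ a.Reduced ∧ b.Reduced
  | .mul a b => a.Reduced ∧ b.Reduced

/-- `R` is a most efficient representation of `n`. -/
def MostEfficient (n : ℕ) (R : Expr) : Prop := R.val 1 = n ∧ R.size = complexity 1 n

/-- a table containing all values of 1-expressions by size -/
def T : ℕ → List ℕ
  | 1 => [1]
  | 2 => [1, 2]
  | 3 => [1, 2, 3]
  | 4 => [1, 2, 3, 4]
  | 5 => [1, 2, 3, 4, 5, 6]
  | 6 => [1, 2, 3, 4, 5, 6, 7, 8, 9]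
  | 7 => [1, 2, 3, 4, 5, 6, 7, 8, 9, 10, 12]
  | _ => []

theorem T_closed' : ∀ i j : Fin 8, 0 < i.val ∧ 0 < j.val ∧ i.val + j.val < 8 →
    ∀ a ∈ T i, ∀ b ∈ T j, a + b ∈ T (i + j) ∧ a * b ∈ T (i + j) := by
  decide

theorem T_closed (i : ℕ) (hi : i < 8) (j : ℕ) (hj : j < 8) (h1 : 0 < i) (h2 : 0 < j)
    (h : i + j < 8) : ∀ a ∈ T i, ∀ b ∈ T j, a + b ∈ T (i + j) ∧ a * b ∈ T (i + j) :=
  T_closed' ⟨i, hi⟩ ⟨j, hj⟩ ⟨h1, h2, h⟩

theorem size_pos (E : Expr) : 0 < E.size := by
  induction E with
  | c => simp [Expr.size]
  | add a b iha ihb => simp [Expr.size]; omega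
  | mul a b iha ihb => simp [Expr.size]; omega

theorem val_mem (E : Expr) (h : E.size < 8) : E.val 1 ∈ T E.size := by
  induction E with
  | c => simp [Expr.size, Expr.val, T]
  | add a b iha ihb =>
    simp only [Expr.size, Expr.val] at h ⊢
    exact (T_closed _ (by omega) _ (by omega) (size_pos a) (size_pos b) h _ (iha (by omega)) _
      (ihb (by omega))).1
  | mul a b iha ihb =>
    simp only [Expr.size, Expr.val] at h ⊢
    exact (T_closed _ (by omega) _ (by omega) (size_pos a) (size_pos b) h _ (iha (by omega)) _
      (ihb (by omega))).2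

/-- `1+1+1` -/
def three : Expr := .add (.add .c .c) .c

/-- `(1+1+1)(1+1+1)+1+1` -/
def R : Expr := .add (.add (.mul three three) .c) .c

/-- `(2+2)(2·2·2+2)` as an expression in the constant -/
def S : Expr := .mul (.add .c .c) (.add (.mul (.mul .c .c) .c) .c)

theorem complexity_eleven : complexity 1 11 = 8 := by
  unfold complexity
  apply le_antisymm
  · exact Nat.sInf_le ⟨R, rfl, rfl⟩
  · refine le_csInf ⟨8, R, rfl, rfl⟩ ?_
    rintro s ⟨E, hE, rfl⟩
    by_contra hlt
    push Not at hlt
    have h1 := val_mem E hlt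
    rw [hE] at h1
    have h2 : ∀ i < 8, 11 ∉ T i := by decide
    exact h2 _ hlt h1

/-- There are `n` and a reduced most efficient representation `R` of `n` for which the value
`a` of `R` with every `1` replaced by `2` has `2`-complexity smaller than the `1`-complexity
of `n`. -/
theorem result : ∃ (n : ℕ) (R : Expr), 0 < n ∧ MostEfficient n R ∧ R.Reduced ∧
    complexity 2 (R.val 2) < complexity 1 n := by
  refine ⟨11, R, by norm_num, ⟨rfl, ?_⟩, ?_, ?_⟩
  · rw [complexity_eleven]; rfl
  · simp [R, three, Expr.Reduced, Expr.literals]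
  · rw [complexity_eleven]
    have : complexity 2 (R.val 2) ≤ 6 := Nat.sInf_le ⟨S, rfl, rfl⟩
    omega

end Pool.Agent.Results.MP_d302e1_nt.ElevenDoubled
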